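import Pool.Agent.TH885.CO.Plus
import Pool.Agent.H248R6.Dim
import Pool.Agent.H248R5.Tay

/-! Plane fat points dominated by a uniform vector which imposes maximal conditions in every degree. -/

set_option autoImplicit false

namespace Pool.Agent.X134.UF

open MvPolynomial Pool.Agent Pool.Agent.TH167 Pool.Agent.W609.CR Pool.Agent.H932R3

/-- Independence of conditions passes to smaller multiplicities. -/
theorem exp_mono {K : Type} [Field K] {n : ℕ} {P : Fin n → Fin 2 → K} {v w : Fin n → ℕ} {e : ℕ}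
    (hv : ExpDim K v P e) (hc : ∑ i, (v i + 1).choose 2 ≤ (e + 2).choose 2)
    (hw : ∀ i, w i ≤ v i) : ExpDim K w P e := by
  have h1 : Module.finrank K ↥(Pool.Agent.H248R5.forms v P e) =
      (e + 2).choose 2 - ∑ i, (v i + 1).choose 2 := hv
  have hs := Pool.Agent.H248R5.surj_of_ind (w := v) (P := P) (e := e) (by omega)
  have hs2 : Function.Surjective (Pool.Agent.H248R5.ev w P e) := by
    intro y
    have hle : ∀ i, (idealOfVars (Fin 2) K) ^ (v i) ≤ (idealOfVars (Fin 2) K) ^ (w i) :=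
      fun i => Ideal.pow_le_pow_right (hw i)
    choose z hz using fun i => Ideal.Quotient.factor_surjective (hle i) (y i)
    obtain ⟨H, hH⟩ := hs z
    refine ⟨H, ?_⟩
    funext i
    rw [Pool.Agent.H248R5.ev_apply, ← hz i, ← congrFun hH i, Pool.Agent.H248R5.ev_apply,
      Ideal.Quotient.factor_mk]
  have hfin : Module.Finite K ↥(homogeneousSubmodule (Fin 3) K e) :=
    Module.Finite.iff_fg.2 (homogeneousSubmodule_fg _ _ e)
  have hq : ∀ i, Module.Finite K (Pool.Agent.H248R5.Quo K (w i)) :=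
    fun i => Pool.Agent.H248R5.quo_finite (w i)
  have h2 := LinearMap.finrank_range_add_finrank_ker (Pool.Agent.H248R5.ev w P e)
  rw [LinearMap.range_eq_top.2 hs2, finrank_top, Module.finrank_pi_fintype,
    Finset.sum_congr rfl fun i _ => Pool.Agent.H248R6.finrank_quo (K := K) (w i),
    Pool.Agent.H248R6.finrank_homog] at h2
  have h3 : Module.finrank K ↥(Pool.Agent.H248R5.forms w P e) =
      Module.finrank K ↥(LinearMap.ker (Pool.Agent.H248R5.ev w P e)) := by
    rw [Pool.Agent.H248R5.forms_eq_map]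
    exact LinearEquiv.finrank_eq (Submodule.equivSubtypeMap _ _).symm
  show Module.finrank K ↥(Pool.Agent.H248R5.forms w P e) =
      (e + 2).choose 2 - ∑ i, (w i + 1).choose 2
  omega

/-- an enumeration of `S` -/
theorem ex_emb {n : ℕ} (S : Finset (Fin n)) : ∃ e : Fin S.card ↪ Fin n, (∀ j, e j ∈ S) ∧
    ∀ i, i ∉ Finset.univ.map e → i ∉ S := by
  refine ⟨(S.orderEmbOfFin rfl).toEmbedding, fun j => S.orderEmbOfFin_mem rfl j, ?_⟩
  intro i hi h1
  refine hi ?_
  have h2 : i ∈ Set.range (S.orderEmbOfFin rfl) := by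
    rw [Finset.range_orderEmbOfFin]
    exact h1
  obtain ⟨a, ha⟩ := h2
  rw [Finset.mem_map]
  exact ⟨a, Finset.mem_univ _, ha⟩

/-- `w` is at most `m` on `n` of the points and at most `1` elsewhere, and equal to `m` on these or `χ ≥ 0` -/
def DominatedBy (n m d : ℕ) {k : ℕ} (w : Fin k → ℕ) : Prop :=
  ∃ S : Finset (Fin k), S.card = n ∧ (∀ i ∈ S, w i ≤ m) ∧ (∀ i, i ∉ S → w i ≤ 1) ∧
    ((∀ i ∈ S, w i = m) ∨ n * (m + 1).choose 2 ≤ (d + 2).choose 2)

theorem dom_generic {n m d : ℕ} {F : MvPolynomial (Fin n × Fin 2) ℚ} (hF : F ≠ 0)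
    (h : ∀ (K : Type) [Field K] [CharZero K] (Q : Fin n → Fin 2 → K),
      MvPolynomial.aeval (fun ij : Fin n × Fin 2 => Q ij.1 ij.2) F ≠ 0 → ExpDim K (fun _ => m) Q d)
    {k : ℕ} {w : Fin k → ℕ} (hw : DominatedBy n m d w)
    {K : Type} [Field K] [CharZero K] {P : Fin k → Fin 2 → K}
    (hP : AlgebraicIndependent ℚ (fun ij : Fin k × Fin 2 => P ij.1 ij.2)) :
    Module.finrank K ↥(VS (fun j => aff (P j)) w d) =
      (d + 2).choose 2 - ∑ j, (w j + 1).choose 2 := by
  obtain ⟨S, hS, hle, h1, h2⟩ := hw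
  subst hS
  obtain ⟨e, he, he2⟩ := ex_emb S
  refine Pool.Agent.TH885.CO.exp_plus e (fun i hi => h1 i (he2 i hi)) ⟨F, hF, fun Q hQ => ?_⟩ hP
  rcases h2 with h2 | h2
  · have e1 : (fun j => w (e j)) = fun _ => m := funext fun j => h2 _ (he j)
    rw [e1]
    exact h K Q hQ
  · refine exp_mono (h K Q hQ) ?_ fun j => hle _ (he j)
    rw [Finset.sum_const, Finset.card_univ, Fintype.card_fin, smul_eq_mul]
    exact h2

theorem dom_open {n m d : ℕ} {F : MvPolynomial (Fin n × Fin 2) ℚ} (hF : F ≠ 0)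
    (h : ∀ (K : Type) [Field K] [CharZero K] (Q : Fin n → Fin 2 → K),
      MvPolynomial.aeval (fun ij : Fin n × Fin 2 => Q ij.1 ij.2) F ≠ 0 → ExpDim K (fun _ => m) Q d)
    {k : ℕ} {w : Fin k → ℕ} (hw : DominatedBy n m d w) :
    ∃ G : MvPolynomial (Fin k × Fin 2) ℚ, G ≠ 0 ∧ ∀ (L : Type) [Field L] [CharZero L]
      (P : Fin k → Fin 2 → L),
      MvPolynomial.aeval (fun ij : Fin k × Fin 2 => P ij.1 ij.2) G ≠ 0 → ExpDim L w P d := by
  obtain ⟨g, G, hG, hG'⟩ := Pool.Agent.TH885.CO.dim_gen w d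
  obtain ⟨K, _, _, P0, hP0⟩ := Pool.Agent.TH885.CO.exists_generic k
  have h1 := dom_generic hF h hw hP0
  rw [hG' K P0 fun h0 => hG (hP0.eq_zero_of_aeval_eq_zero G h0)] at h1
  refine ⟨G, hG, fun L _ _ P hP => ?_⟩
  have h2 := hG' L P hP
  rw [h1] at h2
  have h4 : Module.finrank L ↥(Pool.Agent.TH167.SHDefs.sys P d w) =
      (d + 2).choose 2 - ∑ j, (w j + 1).choose 2 := by
    rw [Pool.Agent.TH885.CO.sys_eq]
    exact h2
  exact h4

end Pool.Agent.X134.UF
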